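import Mathlib

/-!
# MP_63facb_an: squeezing function limits at a weakly pseudoconvex point of finite type

The egg `D = {|z|⁴ + |w|² < 1}` is a bounded convex domain with smooth boundary of finite type, the
boundary point `p = (0, 1)` is not strongly pseudoconvex, and there is a sequence in `D` converging
to `p` along which the squeezing function tends to `1`.
-/

namespace Pool.Agent.Results.MP_63facb_an.SqueezingEgg

open Filter Topology Metric Asymptotics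

/-- The squeezing function of `D ⊆ ℂⁿ` at `z`: the supremum of the radii `r > 0` for which there
is a holomorphic embedding (injective holomorphic map) `F` of `D` into the unit ball with `F z = 0`
whose image contains the ball of radius `r` about the origin. -/
noncomputable def squeezing {n : ℕ} (D : Set (EuclideanSpace ℂ (Fin n)))
    (z : EuclideanSpace ℂ (Fin n)) : ℝ :=
  sSup {r : ℝ | 0 < r ∧ ∃ F : EuclideanSpace ℂ (Fin n) → EuclideanSpace ℂ (Fin n),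
    DifferentiableOn ℂ F D ∧ Set.InjOn F D ∧ Set.MapsTo F D (ball 0 1) ∧ F z = 0 ∧
    ball 0 r ⊆ F '' D}

/-- `ρ` is a smooth local defining function of `D` on the open neighbourhood `U` of the boundary
point `p`. -/
structure IsLocalDefining {n : ℕ} (D : Set (EuclideanSpace ℂ (Fin n)))
    (p : EuclideanSpace ℂ (Fin n)) (U : Set (EuclideanSpace ℂ (Fin n)))
    (ρ : EuclideanSpace ℂ (Fin n) → ℝ) : Prop where
  isOpen : IsOpen U
  mem : p ∈ U
  smooth : ContDiffOn ℝ (⊤ : ℕ∞) ρ U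
  lt_iff : ∀ x ∈ U, x ∈ D ↔ ρ x < 0
  zero : ρ p = 0
  fderiv_ne : ∀ x ∈ U, ρ x = 0 → fderiv ℝ ρ x ≠ 0

/-- The second derivative of `ρ` at `q` in the real direction `v`. -/
noncomputable def second {n : ℕ} (ρ : EuclideanSpace ℂ (Fin n) → ℝ)
    (q v : EuclideanSpace ℂ (Fin n)) : ℝ :=
  deriv (deriv (fun t : ℝ => ρ (q + t • v))) 0

/-- The Levi form `∑ ρ_{j k̄}(q) v_j v̄_k`, i.e. a quarter of the Laplacian at `0` of
`ζ ↦ ρ (q + ζ v)`. -/
noncomputable def levi {n : ℕ} (ρ : EuclideanSpace ℂ (Fin n) → ℝ)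
    (q v : EuclideanSpace ℂ (Fin n)) : ℝ :=
  (second ρ q v + second ρ q (Complex.I • v)) / 4

/-- The complex tangent space at `q` of the level set of `ρ` through `q`. -/
def complexTangent {n : ℕ} (ρ : EuclideanSpace ℂ (Fin n) → ℝ)
    (q : EuclideanSpace ℂ (Fin n)) : Set (EuclideanSpace ℂ (Fin n)) :=
  {v | fderiv ℝ ρ q v = 0 ∧ fderiv ℝ ρ q (Complex.I • v) = 0}

/-- Levi pseudoconvexity of the hypersurface `{ρ = 0}` in `U`. -/
def LeviPseudoconvexOn {n : ℕ} (ρ : EuclideanSpace ℂ (Fin n) → ℝ)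
    (U : Set (EuclideanSpace ℂ (Fin n))) : Prop :=
  ∀ q ∈ U, ρ q = 0 → ∀ v ∈ complexTangent ρ q, 0 ≤ levi ρ q v

/-- Strong pseudoconvexity at `q`: the Levi form is positive definite on the complex tangent
space. -/
def StronglyPseudoconvexAt {n : ℕ} (ρ : EuclideanSpace ℂ (Fin n) → ℝ)
    (q : EuclideanSpace ℂ (Fin n)) : Prop :=
  ∀ v ∈ complexTangent ρ q, v ≠ 0 → 0 < levi ρ q v

/-- Finite D'Angelo type of `{ρ = 0}` at `q`: there is `T` such that every germ `γ` of a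
holomorphic curve at `q` satisfies `ν(ρ ∘ γ) ≤ T ν(γ - q)`, `ν` being the order of vanishing at
`0`. -/
def FiniteTypeAt {n : ℕ} (ρ : EuclideanSpace ℂ (Fin n) → ℝ)
    (q : EuclideanSpace ℂ (Fin n)) : Prop :=
  ∃ T : ℕ, ∀ γ : ℂ → EuclideanSpace ℂ (Fin n), AnalyticAt ℂ γ 0 → γ 0 = q →
    ∀ k : ℕ, (fun ζ : ℂ => ρ (γ ζ)) =O[𝓝 0] (fun ζ : ℂ => ζ ^ k) →
      (k : ℕ∞) ≤ T * analyticOrderAt (fun ζ => γ ζ - q) 0

/-- abbreviation for `ℂ²` -/
abbrev E := EuclideanSpace ℂ (Fin 2)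

/-- The defining function of the egg. -/
noncomputable def rho (x : E) : ℝ := ‖x 0‖ ^ 4 + ‖x 1‖ ^ 2 - 1

/-- The egg. -/
def egg : Set E := {x | rho x < 0}

/-! ### Square roots in the right half plane -/

/-- principal square root -/
noncomputable def sq (w : ℂ) : ℂ := Complex.exp (Complex.log w / 2)

lemma sq_mul_sq {w : ℂ} (hw : w ≠ 0) : sq w * sq w = w := by
  rw [sq, ← Complex.exp_add, add_halves, Complex.exp_log hw]

lemma sq_ne (w : ℂ) : sq w ≠ 0 := Complex.exp_ne_zero _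

lemma norm_sq_four {w : ℂ} (hw : w ≠ 0) : ‖sq w‖ ^ 4 = ‖w‖ ^ 2 := by
  have := congrArg (fun z => ‖z‖) (sq_mul_sq hw)
  simp only [norm_mul] at this
  rw [← this]
  ring

lemma sq_ofReal {t : ℝ} (ht : 0 < t) : sq (t : ℂ) = (Real.sqrt t : ℂ) := by
  rw [sq, ← Complex.ofReal_log ht.le]
  have : (Real.log t : ℂ) / 2 = ((Real.log t / 2 : ℝ) : ℂ) := by push_cast; rfl
  rw [this, ← Complex.ofReal_exp]
  congr 1
  rw [Real.sqrt_eq_rpow, Real.rpow_def_of_pos ht]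
  congr 1
  ring

/-! ### Moebius identities -/

lemma moebius_id (a : ℝ) (w : ℂ) :
    ‖1 - a * w‖ ^ 2 - ‖w - a‖ ^ 2 = (1 - a ^ 2) * (1 - ‖w‖ ^ 2) := by
  simp only [← Complex.normSq_eq_norm_sq, Complex.normSq_apply]
  simp
  ring

lemma one_sub_ne {a : ℝ} (ha : |a| < 1) {w : ℂ} (hw : ‖w‖ ≤ 1) : (1 : ℂ) - a * w ≠ 0 := by
  intro h
  have h1 : ‖(1 : ℂ)‖ = ‖(a : ℂ) * w‖ := by
    congr 1
    linear_combination h
  rw [norm_mul, Complex.norm_real, Real.norm_eq_abs] at h1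
  simp at h1
  nlinarith [norm_nonneg w, abs_nonneg a]

lemma mem_egg_iff {x : E} : x ∈ egg ↔ ‖x 0‖ ^ 4 + ‖x 1‖ ^ 2 < 1 := by
  simp [egg, rho, sub_neg]

lemma egg_norm0 {x : E} (hx : x ∈ egg) : ‖x 0‖ < 1 := by
  rw [mem_egg_iff] at hx
  by_contra h
  push Not at h
  have : 1 ≤ ‖x 0‖ ^ 4 := one_le_pow₀ h
  nlinarith [sq_nonneg ‖x 1‖]

lemma egg_norm1 {x : E} (hx : x ∈ egg) : ‖x 1‖ < 1 := by
  rw [mem_egg_iff] at hx
  by_contra h
  push Not at h
  have : 1 ≤ ‖x 1‖ ^ 2 := one_le_pow₀ h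
  have : 0 ≤ ‖x 0‖ ^ 4 := by positivity
  linarith

/-- the automorphism of the egg -/
noncomputable def psi (a α : ℝ) (x : E) : E :=
  !₂[α * x 0 / sq (1 - a * x 1), (x 1 - a) / (1 - a * x 1)]

/-- the embedding into the ball -/
noncomputable def emb (s c : ℝ) (x : E) : E :=
  !₂[(x 0 - s) / (1 - s * x 0), c * x 1 / (1 - s * x 0)]

lemma psi_mem {a α : ℝ} (ha : |a| < 1) (hα : α ^ 4 = 1 - a ^ 2) {x : E} (hx : x ∈ egg) :
    psi a α x ∈ egg := by
  have h1 := one_sub_ne ha (egg_norm1 hx).le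
  have hid := moebius_id a (x 1)
  rw [mem_egg_iff] at hx ⊢
  have hpos : 0 < ‖(1 : ℂ) - a * x 1‖ ^ 2 := by positivity
  have e0 : ‖psi a α x 0‖ ^ 4 = (1 - a ^ 2) * ‖x 0‖ ^ 4 / ‖(1 : ℂ) - a * x 1‖ ^ 2 := by
    simp only [psi]
    simp
    rw [div_pow, norm_sq_four h1, mul_pow, ← hα]
    congr 2
    have : |α| ^ 4 = (|α| ^ 2) ^ 2 := by ring
    rw [this, sq_abs]
    ring
  have e1 : ‖psi a α x 1‖ ^ 2 = ‖x 1 - a‖ ^ 2 / ‖(1 : ℂ) - a * x 1‖ ^ 2 := by
    simp only [psi]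
    simp [div_pow]
  rw [e0, e1, ← add_div, div_lt_one hpos]
  have ha2 : 0 < 1 - a ^ 2 := by nlinarith [abs_nonneg a, sq_abs a]
  nlinarith

lemma psi_inj {a α : ℝ} (ha : |a| < 1) (hα : α ≠ 0) : Set.InjOn (psi a α) egg := by
  intro x hx y hy hxy
  have h0 := congrArg (fun z : E => z 0) hxy
  have h1 := congrArg (fun z : E => z 1) hxy
  simp only [psi] at h0 h1
  simp at h0 h1
  have hx1 := one_sub_ne ha (egg_norm1 hx).le
  have hy1 := one_sub_ne ha (egg_norm1 hy).le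
  have ha2 : (1 : ℂ) - a ^ 2 ≠ 0 := by
    have : (0 : ℝ) < 1 - a ^ 2 := by nlinarith [abs_nonneg a, sq_abs a]
    exact_mod_cast this.ne'
  rw [div_eq_div_iff hx1 hy1] at h1
  have hxy1 : x 1 = y 1 := by
    have : (1 - (a : ℂ) ^ 2) * (x 1 - y 1) = 0 := by linear_combination h1
    rcases mul_eq_zero.1 this with h | h
    · exact absurd h ha2
    · exact sub_eq_zero.1 h
  rw [hxy1, div_left_inj' (sq_ne _)] at h0
  have hαC : (α : ℂ) ≠ 0 := by exact_mod_cast hα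
  have hxy0 : x 0 = y 0 := mul_left_cancel₀ hαC h0
  ext i
  fin_cases i
  · exact hxy0
  · exact hxy1

lemma psi_surj {a α : ℝ} (ha : |a| < 1) (hα : α ^ 4 = 1 - a ^ 2) {y : E}
    (hy : y ∈ egg) : ∃ x ∈ egg, psi a α x = y := by
  have ha2 : 0 < 1 - a ^ 2 := by nlinarith [abs_nonneg a, sq_abs a]
  have hα0 : α ≠ 0 := by
    rintro rfl
    norm_num at hα
    linarith
  have hαC : (α : ℂ) ≠ 0 := by exact_mod_cast hα0
  have hy1 : (1 : ℂ) + a * y 1 ≠ 0 := by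
    have := one_sub_ne (a := -a) (by simpa using ha) (egg_norm1 hy).le
    simpa using this
  set u : ℂ := (y 1 + a) / (1 + a * y 1) with hu
  have h1u : 1 - a * u = (1 - a ^ 2) / (1 + a * y 1) := by
    rw [hu]
    field_simp
    ring
  have ha2C : (1 : ℂ) - a ^ 2 ≠ 0 := by exact_mod_cast ha2.ne'
  have h1u0 : 1 - a * u ≠ 0 := by
    rw [h1u]
    exact div_ne_zero ha2C hy1
  refine ⟨!₂[y 0 * sq (1 - a * u) / α, u], ?_, ?_⟩
  · rw [mem_egg_iff]
    have hpos : 0 < ‖(1 : ℂ) + a * y 1‖ ^ 2 := by positivity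
    have hid := moebius_id (-a) (y 1)
    have e0 : ‖y 0 * sq (1 - a * u) / α‖ ^ 4 =
        (1 - a ^ 2) * ‖y 0‖ ^ 4 / ‖(1 : ℂ) + a * y 1‖ ^ 2 := by
      rw [norm_div, norm_mul, div_pow, mul_pow, norm_sq_four h1u0, h1u, norm_div,
        Complex.norm_real, Real.norm_eq_abs]
      have hab : |α| ^ 4 = 1 - a ^ 2 := by
        rw [← hα]
        have : |α| ^ 4 = (|α| ^ 2) ^ 2 := by ring
        rw [this, sq_abs]
        ring
      have hn : ‖(1 : ℂ) - a ^ 2‖ = 1 - a ^ 2 := by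
        have : ((1 : ℂ) - a ^ 2) = ((1 - a ^ 2 : ℝ) : ℂ) := by push_cast; ring
        rw [this, Complex.norm_real, Real.norm_eq_abs, abs_of_pos ha2]
      rw [hab, hn]
      field_simp
    have e1 : ‖u‖ ^ 2 = ‖y 1 + a‖ ^ 2 / ‖(1 : ℂ) + a * y 1‖ ^ 2 := by
      rw [hu, norm_div, div_pow]
    simp only [Matrix.cons_val_zero, Matrix.cons_val_one, Matrix.cons_val_fin_one]
    rw [e0, e1, ← add_div, div_lt_one hpos]
    rw [mem_egg_iff] at hy
    simp at hid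
    nlinarith
  · have hs := sq_ne (1 - a * u)
    ext i
    fin_cases i
    · simp only [psi]
      simp
      field_simp
    · have hua : u - a = (1 - a ^ 2) * y 1 / (1 + a * y 1) := by
        rw [hu, eq_div_iff hy1, sub_mul, div_mul_cancel₀ _ hy1]
        ring
      simp only [psi]
      simp
      rw [h1u, hua]
      field_simp

lemma diffOn_div {f g : E → ℂ} {S : Set E} (hf : DifferentiableOn ℂ f S)
    (hg : DifferentiableOn ℂ g S) (h0 : ∀ x ∈ S, g x ≠ 0) :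
    DifferentiableOn ℂ (fun x => f x / g x) S := by
  simp only [div_eq_mul_inv]
  exact hf.mul (hg.inv h0)

lemma psi_diff {a α : ℝ} (ha : |a| < 1) : DifferentiableOn ℂ (psi a α) egg := by
  have key : ∀ x ∈ egg, (1 : ℂ) - a * x 1 ∈ Complex.slitPlane := by
    intro x hx
    left
    have h1 : ‖(a : ℂ) * x 1‖ < 1 := by
      rw [norm_mul, Complex.norm_real, Real.norm_eq_abs]
      nlinarith [egg_norm1 hx, norm_nonneg (x 1), abs_nonneg a]
    have h2 := Complex.re_le_norm ((a : ℂ) * x 1)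
    simp only [Complex.sub_re, Complex.one_re]
    linarith
  rw [differentiableOn_euclidean]
  intro i
  have hp : ∀ j : Fin 2, DifferentiableOn ℂ (fun x : E => x j) egg := fun j =>
    (differentiable_euclidean.1 differentiable_id j).differentiableOn
  fin_cases i
  · simp only [psi]
    simp
    refine diffOn_div ((hp 0).const_mul _) ?_ (fun x _ => sq_ne _)
    unfold sq
    refine DifferentiableOn.cexp (diffOn_div (DifferentiableOn.clog ?_ key)
      (differentiableOn_const _) (fun x _ => two_ne_zero))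
    exact ((hp 1).const_mul _).const_sub _
  · simp only [psi]
    simp
    refine diffOn_div ((hp 1).sub_const _) (((hp 1).const_mul _).const_sub _) ?_
    intro x hx
    exact one_sub_ne ha (egg_norm1 hx).le

lemma emb_mem {s c : ℝ} (hs : |s| < 1) (hc : c ^ 2 = (1 - s ^ 2) / 2) {x : E} (hx : x ∈ egg) :
    emb s c x ∈ ball (0 : E) 1 := by
  have hne := one_sub_ne hs (egg_norm0 hx).le
  have hpos : 0 < ‖(1 : ℂ) - s * x 0‖ ^ 2 := by positivity
  have hs2 : 0 < 1 - s ^ 2 := by nlinarith [abs_nonneg s, sq_abs s]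
  have hid := moebius_id s (x 0)
  have h0 := egg_norm0 hx
  rw [mem_egg_iff] at hx
  rw [mem_ball_zero_iff, ← sq_lt_one_iff₀ (norm_nonneg _), EuclideanSpace.norm_sq_eq,
    Fin.sum_univ_two]
  have e0 : ‖emb s c x 0‖ ^ 2 = ‖x 0 - s‖ ^ 2 / ‖(1 : ℂ) - s * x 0‖ ^ 2 := by
    simp only [emb]
    simp [div_pow]
  have e1 : ‖emb s c x 1‖ ^ 2 = (1 - s ^ 2) / 2 * ‖x 1‖ ^ 2 / ‖(1 : ℂ) - s * x 0‖ ^ 2 := by
    simp only [emb]
    simp [div_pow, mul_pow, hc]
  rw [e0, e1, ← add_div, div_lt_one hpos]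
  have h1 : ‖x 0‖ ^ 2 < 1 := by nlinarith [norm_nonneg (x 0)]
  have h2 : ‖x 1‖ ^ 2 / 2 < 1 - ‖x 0‖ ^ 2 := by nlinarith [sq_nonneg (‖x 0‖ ^ 2 - 1)]
  nlinarith

lemma emb_inj {s c : ℝ} (hs : |s| < 1) (hc : c ≠ 0) : Set.InjOn (emb s c) egg := by
  intro x hx y hy hxy
  have h0 := congrArg (fun z : E => z 0) hxy
  have h1 := congrArg (fun z : E => z 1) hxy
  simp only [emb] at h0 h1
  simp at h0 h1
  have hx1 := one_sub_ne hs (egg_norm0 hx).le
  have hy1 := one_sub_ne hs (egg_norm0 hy).le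
  have hs2 : (1 : ℂ) - s ^ 2 ≠ 0 := by
    have : (0 : ℝ) < 1 - s ^ 2 := by nlinarith [abs_nonneg s, sq_abs s]
    exact_mod_cast this.ne'
  rw [div_eq_div_iff hx1 hy1] at h0
  have hxy0 : x 0 = y 0 := by
    have : (1 - (s : ℂ) ^ 2) * (x 0 - y 0) = 0 := by linear_combination h0
    rcases mul_eq_zero.1 this with h | h
    · exact absurd h hs2
    · exact sub_eq_zero.1 h
  rw [hxy0, div_left_inj' hy1] at h1
  have hcC : (c : ℂ) ≠ 0 := by exact_mod_cast hc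
  have hxy1 : x 1 = y 1 := mul_left_cancel₀ hcC h1
  ext i
  fin_cases i
  · exact hxy0
  · exact hxy1

lemma emb_diff {s c : ℝ} (hs : |s| < 1) : DifferentiableOn ℂ (emb s c) egg := by
  rw [differentiableOn_euclidean]
  intro i
  have hp : ∀ j : Fin 2, DifferentiableOn ℂ (fun x : E => x j) egg := fun j =>
    (differentiable_euclidean.1 differentiable_id j).differentiableOn
  fin_cases i
  · simp only [emb]
    simp
    refine diffOn_div ((hp 0).sub_const _) (((hp 0).const_mul _).const_sub _) ?_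
    intro x hx
    exact one_sub_ne hs (egg_norm0 hx).le
  · simp only [emb]
    simp
    refine diffOn_div ((hp 1).const_mul _) (((hp 0).const_mul _).const_sub _) ?_
    intro x hx
    exact one_sub_ne hs (egg_norm0 hx).le

lemma emb_surj {s c r : ℝ} (hs0 : 0 < s) (hs : s < 1) (hc : c ^ 2 = (1 - s ^ 2) / 2)
    (hr : 2 * (1 - s ^ 2) ≤ 1 - r ^ 2) (hr0 : 0 < r) {y : E}
    (hy : y ∈ ball (0 : E) r) : ∃ x ∈ egg, emb s c x = y := by
  have hs2 : 0 < 1 - s ^ 2 := by nlinarith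
  have hc0 : c ≠ 0 := by
    rintro rfl
    norm_num at hc
    linarith
  have hcC : (c : ℂ) ≠ 0 := by exact_mod_cast hc0
  have hyr : ‖y 0‖ ^ 2 + ‖y 1‖ ^ 2 < r ^ 2 := by
    rw [mem_ball_zero_iff] at hy
    have : ‖y‖ ^ 2 < r ^ 2 := by nlinarith [norm_nonneg y]
    rwa [EuclideanSpace.norm_sq_eq, Fin.sum_univ_two] at this
  have hr1 : r ^ 2 < 1 := by nlinarith
  have hy0 : ‖y 0‖ ^ 2 < 1 := by nlinarith [sq_nonneg ‖y 1‖]
  have hy01 : ‖y 0‖ < 1 := by nlinarith [norm_nonneg (y 0)]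
  have hne : (1 : ℂ) + s * y 0 ≠ 0 := by
    have := one_sub_ne (a := -s) (by rw [abs_neg, abs_of_pos hs0]; exact hs) hy01.le
    simpa using this
  have hs2C : (1 : ℂ) - s ^ 2 ≠ 0 := by exact_mod_cast hs2.ne'
  set Z : ℂ := (y 0 + s) / (1 + s * y 0) with hZ
  have h1Z : 1 - s * Z = (1 - s ^ 2) / (1 + s * y 0) := by
    rw [hZ]
    field_simp
    ring
  have hZs : Z - s = (1 - s ^ 2) * y 0 / (1 + s * y 0) := by
    rw [hZ, eq_div_iff hne, sub_mul, div_mul_cancel₀ _ hne]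
    ring
  have hn : ‖(1 : ℂ) - s ^ 2‖ = 1 - s ^ 2 := by
    have : ((1 : ℂ) - s ^ 2) = ((1 - s ^ 2 : ℝ) : ℂ) := by push_cast; ring
    rw [this, Complex.norm_real, Real.norm_eq_abs, abs_of_pos hs2]
  refine ⟨!₂[Z, y 1 * (1 - s * Z) / c], ?_, ?_⟩
  · rw [mem_egg_iff]
    have hpos : 0 < ‖(1 : ℂ) + s * y 0‖ ^ 2 := by positivity
    have hid := moebius_id (-s) (y 0)
    simp at hid
    have hK : (1 - ‖y 0‖) ^ 2 ≤ ‖(1 : ℂ) + s * y 0‖ ^ 2 := by
      have h1 : 1 - ‖y 0‖ ≤ ‖(1 : ℂ) + s * y 0‖ := by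
        have h2 : ‖(1 : ℂ)‖ ≤ ‖(1 : ℂ) + s * y 0‖ + ‖(s : ℂ) * y 0‖ := by
          have := norm_sub_le ((1 : ℂ) + s * y 0) (s * y 0)
          simpa using this
        rw [norm_mul, Complex.norm_real, Real.norm_eq_abs, abs_of_pos hs0] at h2
        simp at h2
        nlinarith [norm_nonneg (y 0)]
      have h0 : 0 ≤ 1 - ‖y 0‖ := by linarith
      exact pow_le_pow_left₀ h0 h1 2
    set K : ℝ := ‖(1 : ℂ) + s * y 0‖ ^ 2 with hKdef
    have e0 : ‖Z‖ ^ 2 = 1 - (1 - s ^ 2) * (1 - ‖y 0‖ ^ 2) / K := by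
      rw [hZ, norm_div, div_pow, ← hKdef]
      field_simp
      linarith
    have e1 : ‖y 1 * (1 - s * Z) / c‖ ^ 2 = 2 * ‖y 1‖ ^ 2 * (1 - s ^ 2) / K := by
      rw [h1Z, norm_div, norm_mul, norm_div, hn, Complex.norm_real, Real.norm_eq_abs, div_pow,
        sq_abs, hc, mul_pow, div_pow, ← hKdef]
      field_simp
    simp only [Matrix.cons_val_zero, Matrix.cons_val_one, Matrix.cons_val_fin_one]
    rw [e1]
    have e4 : ‖Z‖ ^ 4 = (1 - (1 - s ^ 2) * (1 - ‖y 0‖ ^ 2) / K) ^ 2 := by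
      rw [← e0]
      ring
    rw [e4]
    set τ : ℝ := (1 - s ^ 2) * (1 - ‖y 0‖ ^ 2) / K with hτ
    have hτK : τ * K = (1 - s ^ 2) * (1 - ‖y 0‖ ^ 2) := by
      rw [hτ]
      field_simp
    have hτ0 : 0 < τ := by
      rw [hτ]
      have : 0 < 1 - ‖y 0‖ ^ 2 := by linarith
      positivity
    -- the key estimate
    have hkey : (1 - ‖y 0‖ ^ 2) * τ ≤ 4 * (1 - s ^ 2) := by
      rw [hτ, mul_div_assoc', div_le_iff₀ hpos]
      have : (1 - ‖y 0‖ ^ 2) ^ 2 ≤ 4 * (1 - ‖y 0‖) ^ 2 := by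
        have h5 : (1 - ‖y 0‖ ^ 2) ^ 2 = (1 - ‖y 0‖) ^ 2 * (1 + ‖y 0‖) ^ 2 := by ring
        have h6 : (1 + ‖y 0‖) ^ 2 ≤ 4 := by nlinarith [norm_nonneg (y 0)]
        rw [h5]
        nlinarith [sq_nonneg (1 - ‖y 0‖)]
      nlinarith
    have hfin : 2 * ‖y 1‖ ^ 2 * (1 - s ^ 2) / K < τ * (2 - τ) := by
      rw [div_lt_iff₀ hpos]
      have : τ * (2 - τ) * K = (1 - s ^ 2) * (1 - ‖y 0‖ ^ 2) * (2 - τ) := by
        rw [← hτK]
        ring
      rw [this]
      have h7 : 2 * ‖y 1‖ ^ 2 < (1 - ‖y 0‖ ^ 2) * (2 - τ) := by linarith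
      have h8 := mul_lt_mul_of_pos_right h7 hs2
      linarith
    have h9 : (1 - τ) ^ 2 = 1 - τ * (2 - τ) := by ring
    rw [h9]
    linarith
  · ext i
    fin_cases i
    · simp only [emb]
      simp
      rw [h1Z, hZs]
      field_simp
    · simp only [emb]
      simp
      rw [h1Z]
      field_simp

/-- the points of the sequence -/
noncomputable def pt (s a α : ℝ) : E := !₂[(α : ℂ) * s, (a : ℂ)]

lemma pt_mem {s a α : ℝ} (hs0 : 0 < s) (hs : s < 1) (ha : |a| < 1) (hα : α ^ 4 = 1 - a ^ 2) :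
    pt s a α ∈ egg := by
  have ha2 : 0 < 1 - a ^ 2 := by nlinarith [abs_nonneg a, sq_abs a]
  rw [mem_egg_iff]
  simp only [pt]
  simp
  have e4 : (|α| * |s|) ^ 4 = (1 - a ^ 2) * s ^ 4 := by
    rw [← hα]
    have : (|α| * |s|) ^ 4 = (|α| ^ 2) ^ 2 * (|s| ^ 2) ^ 2 := by ring
    rw [this, sq_abs, sq_abs]
    ring
  rw [e4]
  have : s ^ 4 < 1 := pow_lt_one₀ hs0.le hs (by norm_num)
  nlinarith

lemma bdd (D : Set E) (z : E) : ∀ r ∈ {r : ℝ | 0 < r ∧ ∃ F : E → E,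
    DifferentiableOn ℂ F D ∧ Set.InjOn F D ∧ Set.MapsTo F D (ball 0 1) ∧ F z = 0 ∧
    ball 0 r ⊆ F '' D}, r ≤ 1 := by
  rintro r ⟨hr, F, -, -, hmaps, -, hsub⟩
  by_contra h
  push Not at h
  have h1 : EuclideanSpace.single (0 : Fin 2) (1 : ℂ) ∈ ball (0 : E) r := by
    rw [mem_ball_zero_iff]
    simpa using h
  obtain ⟨x, hx, hxe⟩ := hsub h1
  have h2 := hmaps hx
  rw [hxe, mem_ball_zero_iff] at h2
  simp at h2

lemma squeezing_le_one {z : E} : squeezing egg z ≤ 1 := by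
  unfold squeezing
  exact Real.sSup_le (bdd egg z) zero_le_one

lemma squeezing_ge {s a α r : ℝ} (hs0 : 0 < s) (hs : s < 1) (ha0 : 0 ≤ a) (ha : a < 1)
    (hα : α ^ 4 = 1 - a ^ 2) (hr : 2 * (1 - s ^ 2) ≤ 1 - r ^ 2) (hr0 : 0 < r) :
    r ≤ squeezing egg (pt s a α) := by
  have hs2 : 0 < 1 - s ^ 2 := by nlinarith
  have ha2 : 0 < 1 - a ^ 2 := by nlinarith
  have has : |a| < 1 := by rwa [abs_of_nonneg ha0]
  have hss : |s| < 1 := by rwa [abs_of_pos hs0]
  have hα0 : α ≠ 0 := by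
    rintro rfl
    norm_num at hα
    linarith
  set c := Real.sqrt ((1 - s ^ 2) / 2) with hc
  have hc2 : c ^ 2 = (1 - s ^ 2) / 2 := Real.sq_sqrt (by positivity)
  have hc0 : c ≠ 0 := by
    rintro h
    rw [h] at hc2
    norm_num at hc2
    linarith
  refine le_csSup ⟨1, bdd egg _⟩ ⟨hr0, fun x => emb s c (psi a α x), ?_, ?_, ?_, ?_, ?_⟩
  · exact (emb_diff hss).comp (psi_diff has) (fun x hx => psi_mem has hα hx)
  · exact (emb_inj hss hc0).comp (psi_inj has hα0) (fun x hx => psi_mem has hα hx)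
  · intro x hx
    exact emb_mem hss hc2 (psi_mem has hα hx)
  · have hsq : sq (1 - (a : ℂ) * a) = (α : ℂ) ^ 2 := by
      have h1 : (1 : ℂ) - a * a = ((1 - a ^ 2 : ℝ) : ℂ) := by push_cast; ring
      rw [h1, sq_ofReal ha2]
      have h2 : Real.sqrt (1 - a ^ 2) = α ^ 2 := by
        rw [← hα]
        have : α ^ 4 = (α ^ 2) ^ 2 := by ring
        rw [this, Real.sqrt_sq (sq_nonneg α)]
      rw [h2]
      push_cast
      rfl
    have hαC : (α : ℂ) ≠ 0 := by exact_mod_cast hα0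
    have hpsi : psi a α (pt s a α) = !₂[(s : ℂ), 0] := by
      ext i
      fin_cases i
      · simp only [psi, pt]
        simp
        rw [hsq]
        field_simp
      · simp only [psi, pt]
        simp
    show emb s c (psi a α (pt s a α)) = 0
    rw [hpsi]
    ext i
    fin_cases i
    · simp [emb]
    · simp [emb]
  · intro y hy
    obtain ⟨x', hx', rfl⟩ := emb_surj hs0 hs hc2 hr hr0 hy
    obtain ⟨x, hx, rfl⟩ := psi_surj has hα hx'
    exact ⟨x, hx, rfl⟩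

/-! ### Geometry of the egg -/

lemma rho_line (x v : E) (t : ℝ) : rho (x + t • v) =
    (‖x 0‖ ^ 2 + 2 * (x 0 * (starRingEnd ℂ) (v 0)).re * t + ‖v 0‖ ^ 2 * t ^ 2) ^ 2 +
    (‖x 1‖ ^ 2 + 2 * (x 1 * (starRingEnd ℂ) (v 1)).re * t + ‖v 1‖ ^ 2 * t ^ 2) - 1 := by
  have key : ∀ a b : ℂ, ‖a + t * b‖ ^ 2 =
      ‖a‖ ^ 2 + 2 * (a * (starRingEnd ℂ) b).re * t + ‖b‖ ^ 2 * t ^ 2 := by
    intro a b
    simp only [← Complex.normSq_eq_norm_sq, Complex.normSq_apply]
    simp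
    ring
  unfold rho
  have e : ∀ i : Fin 2, (x + t • v) i = x i + t * v i := by
    intro i
    simp
  rw [e, e, ← key, ← key]
  ring

lemma quad_deriv (A B C t : ℝ) :
    HasDerivAt (fun t : ℝ => A + 2 * B * t + C * t ^ 2) (2 * B + 2 * C * t) t :=
  ((((hasDerivAt_id' t).const_mul (2 * B)).const_add A).fun_add
    ((hasDerivAt_pow 2 t).const_mul C)).congr_deriv (by norm_num; ring)

lemma lin_deriv (B C t : ℝ) : HasDerivAt (fun t : ℝ => 2 * B + 2 * C * t) (2 * C) t :=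
  (((hasDerivAt_id' t).const_mul (2 * C)).const_add (2 * B)).congr_deriv (by ring)

lemma line_deriv (A B C A' B' C' t : ℝ) : HasDerivAt
    (fun t : ℝ => (A + 2 * B * t + C * t ^ 2) ^ 2 + (A' + 2 * B' * t + C' * t ^ 2) - 1)
    (2 * (A + 2 * B * t + C * t ^ 2) * (2 * B + 2 * C * t) + (2 * B' + 2 * C' * t)) t :=
  ((((quad_deriv A B C t).fun_pow 2).fun_add (quad_deriv A' B' C' t)).sub_const 1).congr_deriv
    (by norm_num)

lemma line_deriv2 (A B C A' B' C' : ℝ) : deriv (deriv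
    (fun t : ℝ => (A + 2 * B * t + C * t ^ 2) ^ 2 + (A' + 2 * B' * t + C' * t ^ 2) - 1)) 0 =
    8 * B ^ 2 + 4 * A * C + 2 * C' := by
  have h1 : deriv
      (fun t : ℝ => (A + 2 * B * t + C * t ^ 2) ^ 2 + (A' + 2 * B' * t + C' * t ^ 2) - 1) =
      fun t => 2 * (A + 2 * B * t + C * t ^ 2) * (2 * B + 2 * C * t) + (2 * B' + 2 * C' * t) := by
    funext t
    exact (line_deriv A B C A' B' C' t).deriv
  rw [h1]
  have h5 := ((((quad_deriv A B C 0).const_mul 2).fun_mul (lin_deriv B C 0)).fun_add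
    (lin_deriv B' C' 0)).deriv
  rw [h5]
  ring

lemma second_rho (q v : E) : second rho q v =
    8 * (q 0 * (starRingEnd ℂ) (v 0)).re ^ 2 + 4 * ‖q 0‖ ^ 2 * ‖v 0‖ ^ 2 + 2 * ‖v 1‖ ^ 2 := by
  unfold second
  simp only [rho_line]
  rw [line_deriv2]

lemma contDiff_rho : ContDiff ℝ (⊤ : ℕ∞) rho := by
  have hp : ∀ j : Fin 2, ContDiff ℝ (⊤ : ℕ∞) (fun x : E => x j) := fun j =>
    ((EuclideanSpace.proj j : E →L[ℂ] ℂ).restrictScalars ℝ).contDiff
  have h : rho = fun x : E => (‖x 0‖ ^ 2) ^ 2 + ‖x 1‖ ^ 2 - 1 := by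
    funext x
    unfold rho
    ring
  rw [h]
  exact (((hp 0).norm_sq ℝ).pow 2).add ((hp 1).norm_sq ℝ) |>.sub contDiff_const

lemma fderiv_rho (q v : E) : fderiv ℝ rho q v =
    4 * ‖q 0‖ ^ 2 * (q 0 * (starRingEnd ℂ) (v 0)).re + 2 * (q 1 * (starRingEnd ℂ) (v 1)).re := by
  have hd : DifferentiableAt ℝ rho q :=
    (contDiff_rho.differentiable (by simp)).differentiableAt
  rw [← hd.lineDeriv_eq_fderiv]
  unfold lineDeriv
  simp only [rho_line]
  rw [(line_deriv _ _ _ _ _ _ 0).deriv]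
  ring

lemma isOpen_egg : IsOpen egg :=
  isOpen_lt contDiff_rho.continuous continuous_const

lemma bounded_egg : Bornology.IsBounded egg := by
  refine (isBounded_ball : Bornology.IsBounded (ball (0 : E) 2)).subset ?_
  intro x hx
  have h0 := egg_norm0 hx
  have h1 := egg_norm1 hx
  rw [mem_ball_zero_iff]
  have : ‖x‖ ^ 2 < 2 ^ 2 := by
    rw [EuclideanSpace.norm_sq_eq, Fin.sum_univ_two]
    nlinarith [norm_nonneg (x 0), norm_nonneg (x 1)]
  exact lt_of_pow_lt_pow_left₀ 2 (by norm_num) this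

lemma convex_egg : Convex ℝ egg := by
  have hn : ∀ j : Fin 2, ConvexOn ℝ Set.univ (fun x : E => ‖x j‖) := by
    intro j
    refine ⟨convex_univ, ?_⟩
    intro x _ y _ a b ha hb _
    have e : (a • x + b • y) j = a • x j + b • y j := by simp
    show ‖(a • x + b • y) j‖ ≤ a • ‖x j‖ + b • ‖y j‖
    rw [e]
    refine (norm_add_le _ _).trans ?_
    rw [norm_smul, norm_smul, Real.norm_of_nonneg ha, Real.norm_of_nonneg hb]
    simp
  have h4 := (hn 0).pow (fun x _ => norm_nonneg _) 4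
  have h2 := (hn 1).pow (fun x _ => norm_nonneg _) 2
  have h := h4.add h2
  have := h.convex_lt 1
  have hset : egg = {x | x ∈ Set.univ ∧
      ((fun x : E => ‖x 0‖) ^ 4 + (fun x : E => ‖x 1‖) ^ 2) x < 1} := by
    ext x
    rw [mem_egg_iff]
    simp
  rw [hset]
  exact this

/-- the weakly pseudoconvex boundary point -/
noncomputable def p₀ : E := !₂[0, 1]

lemma localDefining : IsLocalDefining egg p₀ Set.univ rho where
  isOpen := isOpen_univ
  mem := Set.mem_univ _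
  smooth := contDiff_rho.contDiffOn
  lt_iff := fun x _ => Iff.rfl
  zero := by
    simp [rho, p₀]
  fderiv_ne := by
    intro x _ hx h
    have h1 := fderiv_rho x x
    rw [h] at h1
    simp only [Complex.mul_conj, Complex.normSq_eq_norm_sq, Complex.ofReal_re] at h1
    simp at h1
    unfold rho at hx
    have h2 : ‖x 0‖ ^ 2 * ‖x 0‖ ^ 2 = ‖x 0‖ ^ 4 := by ring
    have h3 : 0 ≤ ‖x 0‖ ^ 4 := by positivity
    nlinarith [sq_nonneg ‖x 1‖]

lemma levi_nonneg : LeviPseudoconvexOn rho Set.univ := by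
  intro q _ _ v _
  unfold levi
  rw [second_rho, second_rho]
  positivity

lemma not_strong : ¬ StronglyPseudoconvexAt rho p₀ := by
  intro h
  have h1 := h (!₂[1, 0]) ?_ ?_
  · unfold levi at h1
    rw [second_rho, second_rho] at h1
    simp [p₀] at h1
  · constructor
    · rw [fderiv_rho]
      simp [p₀]
    · rw [fderiv_rho]
      simp [p₀]
  · intro h0
    have := congrArg (fun x : E => x 0) h0
    simp at this

/-! ### Finite type -/

lemma harm {L : ℂ → ℂ} (hL : AnalyticAt ℂ L 0) (hL0 : L 0 = 0) {C c : ℝ} (hc : 0 < c)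
    {k n : ℕ} (h : ∀ᶠ ζ in 𝓝 (0 : ℂ), (L ζ).re ≤ C * ‖ζ‖ ^ k - c * ‖ζ‖ ^ n) : k ≤ n := by
  by_contra hkn
  push Not at hkn
  obtain ⟨R, hR, hball⟩ := Metric.eventually_nhds_iff_ball.1 (h.and hL.eventually_analyticAt)
  set t : ℝ := min (R / 2) (min 1 (c / (2 * (|C| + 1)))) with ht
  have hC : 0 < 2 * (|C| + 1) := by positivity
  have ht0 : 0 < t := by
    rw [ht]
    exact lt_min (by positivity) (lt_min one_pos (by positivity))
  have htR : t < R := lt_of_le_of_lt (min_le_left _ _) (by linarith)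
  have ht1 : t ≤ 1 := (min_le_right _ _).trans (min_le_left _ _)
  have htc : t ≤ c / (2 * (|C| + 1)) := (min_le_right _ _).trans (min_le_right _ _)
  have hsub : closedBall (0 : ℂ) |t| ⊆ ball 0 R := by
    rw [abs_of_pos ht0]
    exact closedBall_subset_ball htR
  have hd : DifferentiableOn ℂ L (ball 0 R) := fun z hz =>
    ((hball z hz).2.differentiableAt).differentiableWithinAt
  have hcl : DiffContOnCl ℂ L (ball 0 |t|) := by
    refine ⟨hd.mono (ball_subset_closedBall.trans hsub), ?_⟩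
    exact hd.continuousOn.mono (closure_ball_subset_closedBall.trans hsub)
  have havg := hcl.circleAverage
  have hci : CircleIntegrable L 0 t := by
    refine ContinuousOn.circleIntegrable' ?_
    exact hd.continuousOn.mono (sphere_subset_closedBall.trans hsub)
  have hre := Complex.reCLM.circleAverage_comp_comm hci
  rw [havg, hL0] at hre
  have hci2 : CircleIntegrable (⇑Complex.reCLM ∘ L) 0 t := by
    refine ContinuousOn.circleIntegrable' ?_
    exact Complex.reCLM.continuous.comp_continuousOn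
      (hd.continuousOn.mono (sphere_subset_closedBall.trans hsub))
  have hle := Real.circleAverage_mono_on_of_le_circle (a := -(c / 2 * t ^ n)) hci2 ?_
  · rw [hre] at hle
    simp at hle
    have : 0 < c / 2 * t ^ n := by positivity
    linarith
  · intro z hz
    have hz' : ‖z‖ = t := by
      rw [mem_sphere_zero_iff_norm] at hz
      rw [hz, abs_of_pos ht0]
    have h1 := (hball z (hsub (sphere_subset_closedBall hz))).1
    rw [hz'] at h1
    simp only [Function.comp, Complex.reCLM_apply]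
    refine h1.trans ?_
    have h2 : C * t ^ k ≤ |C| * (t * t ^ n) := by
      have h3 : t ^ k ≤ t * t ^ n := by
        rw [← pow_succ']
        exact pow_le_pow_of_le_one ht0.le ht1 hkn
      have h4 : 0 ≤ t ^ k := by positivity
      calc C * t ^ k ≤ |C| * t ^ k := mul_le_mul_of_nonneg_right (le_abs_self C) h4
        _ ≤ |C| * (t * t ^ n) := mul_le_mul_of_nonneg_left h3 (abs_nonneg C)
    have h5 : |C| * t ≤ c / 2 := by
      have h6 : (|C| + 1) * t ≤ c / 2 := by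
        have := mul_le_mul_of_nonneg_left htc (by positivity : (0 : ℝ) ≤ |C| + 1)
        refine this.trans (le_of_eq ?_)
        field_simp
      nlinarith
    have h7 : 0 < t ^ n := by positivity
    nlinarith

lemma lower {γ : ℂ → E} {q : E} (hγ : AnalyticAt ℂ γ 0) (hq : γ 0 = q) {m : ℕ}
    (hm : analyticOrderAt (fun ζ => γ ζ - q) 0 = m) :
    ∃ c : ℝ, 0 < c ∧ ∀ᶠ ζ in 𝓝 (0 : ℂ), c * ‖ζ‖ ^ (4 * m) ≤
      ‖(γ ζ 0) ^ 2 - (q 0) ^ 2‖ ^ 2 + ‖γ ζ 1 - q 1‖ ^ 2 := by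
  have hγq : AnalyticAt ℂ (fun ζ => γ ζ - q) 0 := hγ.sub analyticAt_const
  obtain ⟨g, hg, hg0, hgeq⟩ := (hγq.analyticOrderAt_eq_natCast).1 hm
  have hgc : ∀ j : Fin 2, ContinuousAt (fun ζ => g ζ j) 0 := fun j =>
    (EuclideanSpace.proj j : E →L[ℂ] ℂ).continuous.continuousAt.comp hg.continuousAt
  have hγc : ContinuousAt (fun ζ => γ ζ 0) 0 :=
    (EuclideanSpace.proj 0 : E →L[ℂ] ℂ).continuous.continuousAt.comp hγ.continuousAt
  have hball : ∀ᶠ ζ in 𝓝 (0 : ℂ), ‖ζ‖ ≤ 1 := by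
    have := Metric.ball_mem_nhds (0 : ℂ) one_pos
    filter_upwards [this] with ζ hζ
    rw [mem_ball_zero_iff] at hζ
    exact hζ.le
  have hpow : ∀ ζ : ℂ, ‖ζ‖ ≤ 1 → ‖ζ‖ ^ (4 * m) ≤ (‖ζ‖ ^ m) ^ 2 := by
    intro ζ hζ
    rw [← pow_mul]
    exact pow_le_pow_of_le_one (norm_nonneg _) hζ (by omega)
  have hcomp : ∀ᶠ ζ in 𝓝 (0 : ℂ), ∀ j : Fin 2, γ ζ j - q j = ζ ^ m * g ζ j := by
    filter_upwards [hgeq] with ζ hζ j
    have := congrArg (fun x : E => x j) hζ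
    simpa using this
  by_cases h1 : g 0 1 = 0
  · have h0 : g 0 0 ≠ 0 := by
      intro h0
      apply hg0
      ext i
      fin_cases i
      · exact h0
      · exact h1
    have hev : ∀ᶠ ζ in 𝓝 (0 : ℂ), ‖g 0 0‖ / 2 < ‖g ζ 0‖ := by
      have : ContinuousAt (fun ζ => ‖g ζ 0‖) 0 := (hgc 0).norm
      exact this.eventually (lt_mem_nhds (half_lt_self (norm_pos_iff.2 h0)))
    have hG : 0 < ‖g 0 0‖ / 2 := half_pos (norm_pos_iff.2 h0)
    set G : ℝ := ‖g 0 0‖ / 2 with hGdef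
    by_cases hq0 : q 0 = 0
    · refine ⟨G ^ 4, by positivity, ?_⟩
      filter_upwards [hev, hcomp] with ζ hζ hc
      have e := hc 0
      rw [hq0, sub_zero] at e
      have e2 : ‖(γ ζ 0) ^ 2 - (q 0) ^ 2‖ ^ 2 = ‖ζ‖ ^ (4 * m) * ‖g ζ 0‖ ^ 4 := by
        rw [hq0, e]
        simp only [ne_eq, OfNat.ofNat_ne_zero, not_false_eq_true, zero_pow, sub_zero, norm_pow,
          norm_mul]
        ring
      rw [e2]
      have h3 : G ^ 4 ≤ ‖g ζ 0‖ ^ 4 := pow_le_pow_left₀ hG.le hζ.le 4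
      have h4 : 0 ≤ ‖ζ‖ ^ (4 * m) := by positivity
      nlinarith [sq_nonneg ‖γ ζ 1 - q 1‖]
    · have hQ : 0 < ‖q 0‖ := norm_pos_iff.2 hq0
      refine ⟨(G * ‖q 0‖) ^ 2, by positivity, ?_⟩
      have hev2 : ∀ᶠ ζ in 𝓝 (0 : ℂ), ‖q 0‖ < ‖γ ζ 0 + q 0‖ := by
        have hcont : ContinuousAt (fun ζ => ‖γ ζ 0 + q 0‖) 0 :=
          (hγc.add continuousAt_const).norm
        refine hcont.eventually (lt_mem_nhds ?_)
        show ‖q 0‖ < ‖γ 0 0 + q 0‖
        rw [hq, ← two_mul, norm_mul]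
        simp
        linarith
      filter_upwards [hev, hev2, hcomp, hball] with ζ hζ hζ2 hc hb
      have e2 : ‖(γ ζ 0) ^ 2 - (q 0) ^ 2‖ ^ 2 =
          (‖ζ‖ ^ m) ^ 2 * (‖g ζ 0‖ * ‖γ ζ 0 + q 0‖) ^ 2 := by
        have : (γ ζ 0) ^ 2 - (q 0) ^ 2 = (γ ζ 0 - q 0) * (γ ζ 0 + q 0) := by ring
        rw [this, hc 0]
        simp only [norm_mul, norm_pow]
        ring
      rw [e2]
      have h3 : (G * ‖q 0‖) ^ 2 ≤ (‖g ζ 0‖ * ‖γ ζ 0 + q 0‖) ^ 2 :=
        pow_le_pow_left₀ (by positivity) (mul_le_mul hζ.le hζ2.le hQ.le (norm_nonneg _)) 2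
      have h4 := hpow ζ hb
      have h5 : (G * ‖q 0‖) ^ 2 * ‖ζ‖ ^ (4 * m) ≤
          (‖ζ‖ ^ m) ^ 2 * (‖g ζ 0‖ * ‖γ ζ 0 + q 0‖) ^ 2 := by
        rw [mul_comm]
        exact mul_le_mul h4 h3 (by positivity) (by positivity)
      linarith [sq_nonneg ‖γ ζ 1 - q 1‖]
  · have hev : ∀ᶠ ζ in 𝓝 (0 : ℂ), ‖g 0 1‖ / 2 < ‖g ζ 1‖ := by
      have : ContinuousAt (fun ζ => ‖g ζ 1‖) 0 := (hgc 1).norm
      exact this.eventually (lt_mem_nhds (half_lt_self (norm_pos_iff.2 h1)))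
    have hG : 0 < ‖g 0 1‖ / 2 := half_pos (norm_pos_iff.2 h1)
    set G : ℝ := ‖g 0 1‖ / 2 with hGdef
    refine ⟨G ^ 2, by positivity, ?_⟩
    filter_upwards [hev, hcomp, hball] with ζ hζ hc hb
    have e2 : ‖γ ζ 1 - q 1‖ ^ 2 = (‖ζ‖ ^ m) ^ 2 * ‖g ζ 1‖ ^ 2 := by
      rw [hc 1]
      simp only [norm_mul, norm_pow]
      ring
    rw [e2]
    have h3 : G ^ 2 ≤ ‖g ζ 1‖ ^ 2 := pow_le_pow_left₀ hG.le hζ.le 2
    have h4 := hpow ζ hb
    have h5 : G ^ 2 * ‖ζ‖ ^ (4 * m) ≤ (‖ζ‖ ^ m) ^ 2 * ‖g ζ 1‖ ^ 2 := by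
      rw [mul_comm]
      exact mul_le_mul h4 h3 (by positivity) (by positivity)
    linarith [sq_nonneg ‖(γ ζ 0) ^ 2 - (q 0) ^ 2‖]

lemma finiteType (q : E) (hq : rho q = 0) : FiniteTypeAt rho q := by
  refine ⟨4, ?_⟩
  intro γ hγ hγ0 k hk
  by_cases htop : analyticOrderAt (fun ζ => γ ζ - q) 0 = ⊤
  · rw [htop]
    simp
  · obtain ⟨m, hm⟩ := ENat.ne_top_iff_exists.1 htop
    obtain ⟨c, hc, hlow⟩ := lower hγ hγ0 hm.symm
    obtain ⟨C, hC⟩ := hk.bound
    have hcoord : ∀ j : Fin 2, AnalyticAt ℂ (fun ζ => γ ζ j) 0 := fun j =>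
      ((EuclideanSpace.proj j : E →L[ℂ] ℂ).analyticAt _).comp hγ
    set L : ℂ → ℂ := fun ζ => 2 * (starRingEnd ℂ) ((q 0) ^ 2) * ((γ ζ 0) ^ 2 - (q 0) ^ 2) +
      2 * (starRingEnd ℂ) (q 1) * (γ ζ 1 - q 1) with hL
    have hLan : AnalyticAt ℂ L 0 :=
      (analyticAt_const.mul (((hcoord 0).pow 2).sub analyticAt_const)).add
        (analyticAt_const.mul ((hcoord 1).sub analyticAt_const))
    have hL0 : L 0 = 0 := by
      simp [hL, hγ0]
    have hkm : k ≤ 4 * m := by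
      refine harm (C := C) hLan hL0 hc ?_
      filter_upwards [hlow, hC] with ζ h1 h2
      have key : ∀ a b : ℂ, ‖a‖ ^ 2 - ‖b‖ ^ 2 =
          (2 * (starRingEnd ℂ) b * (a - b)).re + ‖a - b‖ ^ 2 := by
        intro a b
        simp only [← Complex.normSq_eq_norm_sq, Complex.normSq_apply]
        simp
        ring
      have k0 := key ((γ ζ 0) ^ 2) ((q 0) ^ 2)
      have k1 := key (γ ζ 1) (q 1)
      have e0 : ‖(γ ζ 0) ^ 2‖ ^ 2 = ‖γ ζ 0‖ ^ 4 := by
        rw [norm_pow]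
        ring
      have e1 : ‖(q 0) ^ 2‖ ^ 2 = ‖q 0‖ ^ 4 := by
        rw [norm_pow]
        ring
      rw [e0, e1] at k0
      have h3 : (L ζ).re = (2 * (starRingEnd ℂ) ((q 0) ^ 2) * ((γ ζ 0) ^ 2 - (q 0) ^ 2)).re +
          (2 * (starRingEnd ℂ) (q 1) * (γ ζ 1 - q 1)).re := by
        rw [hL]
        simp only [Complex.add_re]
      have h4 : rho (γ ζ) ≤ C * ‖ζ‖ ^ k := by
        have := (le_abs_self (rho (γ ζ))).trans h2
        rwa [norm_pow] at this
      unfold rho at h4 hq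
      rw [h3]
      linarith
    rw [← hm]
    exact_mod_cast hkm

/-! ### The sequence -/

/-- the parameter of the sequence -/
noncomputable def sν (ν : ℕ) : ℝ := 1 - 1 / ((ν : ℝ) + 4)

lemma sν_bounds (ν : ℕ) : 3 / 4 ≤ sν ν ∧ sν ν < 1 := by
  unfold sν
  have h : (0 : ℝ) ≤ ν := Nat.cast_nonneg ν
  constructor
  · have : 1 / ((ν : ℝ) + 4) ≤ 1 / 4 := one_div_le_one_div_of_le (by norm_num) (by linarith)
    linarith
  · have : 0 < 1 / ((ν : ℝ) + 4) := by positivity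
    linarith

lemma sν_tendsto : Tendsto sν atTop (𝓝 1) := by
  have h1 : Tendsto (fun ν : ℕ => 1 / ((ν : ℝ) + 4)) atTop (𝓝 0) := by
    simp only [one_div]
    exact tendsto_inv_atTop_zero.comp
      (tendsto_atTop_add_const_right _ _ tendsto_natCast_atTop_atTop)
  have := h1.const_sub 1
  rw [sub_zero] at this
  exact this

/-- the sequence -/
noncomputable def zν (ν : ℕ) : E := pt (sν ν) (sν ν) (Real.sqrt (Real.sqrt (1 - sν ν ^ 2)))

lemma alpha_pow (ν : ℕ) : (Real.sqrt (Real.sqrt (1 - sν ν ^ 2))) ^ 4 = 1 - sν ν ^ 2 := by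
  obtain ⟨h1, h2⟩ := sν_bounds ν
  have h : 0 ≤ 1 - sν ν ^ 2 := by nlinarith
  have : (Real.sqrt (Real.sqrt (1 - sν ν ^ 2))) ^ 4 =
      ((Real.sqrt (Real.sqrt (1 - sν ν ^ 2))) ^ 2) ^ 2 := by ring
  rw [this, Real.sq_sqrt (Real.sqrt_nonneg _), Real.sq_sqrt h]

lemma zν_mem (ν : ℕ) : zν ν ∈ egg := by
  obtain ⟨h1, h2⟩ := sν_bounds ν
  exact pt_mem (by linarith) h2 (by rw [abs_of_pos (by linarith)]; exact h2) (alpha_pow ν)

lemma zν_tendsto : Tendsto zν atTop (𝓝 p₀) := by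
  have hs := sν_tendsto
  have hα : Tendsto (fun ν => Real.sqrt (Real.sqrt (1 - sν ν ^ 2))) atTop (𝓝 0) := by
    have h1 : Tendsto (fun ν => 1 - sν ν ^ 2) atTop (𝓝 (1 - 1 ^ 2)) := (hs.pow 2).const_sub 1
    have h2 := ((Real.continuous_sqrt.comp Real.continuous_sqrt).tendsto (1 - 1 ^ 2 : ℝ)).comp h1
    simpa [Function.comp_def] using h2
  have h0 : Tendsto (fun ν => zν ν 0) atTop (𝓝 (p₀ 0)) := by
    have : Tendsto (fun ν => ((Real.sqrt (Real.sqrt (1 - sν ν ^ 2)) * sν ν : ℝ) : ℂ)) atTop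
        (𝓝 ((0 * 1 : ℝ) : ℂ)) :=
      (Complex.continuous_ofReal.tendsto _).comp (hα.mul hs)
    simpa [zν, pt, p₀] using this
  have h1 : Tendsto (fun ν => zν ν 1) atTop (𝓝 (p₀ 1)) := by
    have : Tendsto (fun ν => ((sν ν : ℝ) : ℂ)) atTop (𝓝 ((1 : ℝ) : ℂ)) :=
      (Complex.continuous_ofReal.tendsto _).comp hs
    simpa [zν, pt, p₀] using this
  have hpi : Tendsto (fun ν => (zν ν).ofLp) atTop (𝓝 p₀.ofLp) := by
    rw [tendsto_pi_nhds]
    intro i
    fin_cases i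
    · exact h0
    · exact h1
  have := ((PiLp.continuous_toLp 2 (fun _ : Fin 2 => ℂ)).tendsto p₀.ofLp).comp hpi
  simpa [Function.comp_def] using this

/-- **Answer to Q1 of MP_63facb_an: yes.**  There are a bounded convex domain `D ⊆ ℂ²` with smooth
boundary, Levi pseudoconvex and of finite type at every boundary point, a boundary point `p` of
`D` which is not strongly pseudoconvex, and a sequence in `D` converging to `p` along which the
squeezing function tends to `1`. -/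
theorem result : ∃ (D : Set (EuclideanSpace ℂ (Fin 2))) (p : EuclideanSpace ℂ (Fin 2))
    (U : Set (EuclideanSpace ℂ (Fin 2))) (ρ : EuclideanSpace ℂ (Fin 2) → ℝ),
    IsOpen D ∧ IsConnected D ∧ Bornology.IsBounded D ∧ Convex ℝ D ∧ p ∈ frontier D ∧
    IsLocalDefining D p U ρ ∧ closure D ⊆ U ∧ LeviPseudoconvexOn ρ U ∧
    (∀ q ∈ U, ρ q = 0 → FiniteTypeAt ρ q) ∧
    ¬ StronglyPseudoconvexAt ρ p ∧
    ∃ z : ℕ → EuclideanSpace ℂ (Fin 2), (∀ ν, z ν ∈ D) ∧ Tendsto z atTop (𝓝 p) ∧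
      Tendsto (fun ν => squeezing D (z ν)) atTop (𝓝 1) := by
  refine ⟨egg, p₀, Set.univ, rho, isOpen_egg, ?_, bounded_egg, convex_egg, ?_, localDefining,
    Set.subset_univ _, levi_nonneg, fun q _ hq => finiteType q hq, not_strong, zν, zν_mem,
    zν_tendsto, ?_⟩
  · exact ⟨⟨zν 0, zν_mem 0⟩, convex_egg.isPreconnected⟩
  · rw [isOpen_egg.frontier_eq]
    refine ⟨mem_closure_of_tendsto zν_tendsto (Eventually.of_forall zν_mem), ?_⟩
    intro h
    have h1 : rho p₀ < 0 := h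
    rw [localDefining.zero] at h1
    exact lt_irrefl _ h1
  · have hlow : Tendsto (fun ν => Real.sqrt (2 * sν ν ^ 2 - 1)) atTop (𝓝 1) := by
      have h1 : Tendsto (fun ν => 2 * sν ν ^ 2 - 1) atTop (𝓝 (2 * 1 ^ 2 - 1)) :=
        ((sν_tendsto.pow 2).const_mul 2).sub_const 1
      have h2 := (Real.continuous_sqrt.tendsto (2 * 1 ^ 2 - 1 : ℝ)).comp h1
      have h3 : Real.sqrt (2 * 1 ^ 2 - 1) = 1 := by norm_num
      rw [h3] at h2
      exact h2
    refine tendsto_of_tendsto_of_tendsto_of_le_of_le hlow tendsto_const_nhds ?_ ?_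
    · intro ν
      obtain ⟨h1, h2⟩ := sν_bounds ν
      have hpos : 0 < 2 * sν ν ^ 2 - 1 := by nlinarith
      refine squeezing_ge (by linarith) h2 (by linarith) h2 (alpha_pow ν) ?_ (Real.sqrt_pos.2 hpos)
      rw [Real.sq_sqrt hpos.le]
      linarith
    · intro ν
      exact squeezing_le_one

end Pool.Agent.Results.MP_63facb_an.SqueezingEgg
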